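import Mathlib

/-!
# Gauss sums of quadratic forms over the field with two elements
-/

set_option autoImplicit false
set_option linter.unusedSectionVars false

namespace Pool.Agent.Y72.Ar

open Finset Matrix

/-- the nontrivial character of the field with two elements -/
def sg (a : ZMod 2) : ℤ := if a = 0 then 1 else -1

lemma sg_add (a b : ZMod 2) : sg (a + b) = sg a * sg b := by
  revert a b; decide

/-- reduction modulo two -/
abbrev r2 : ZMod 4 →+* ZMod 2 := ZMod.castHom (by decide : 2 ∣ 4) (ZMod 2)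

/-- the injection `a ↦ 2 a` -/
def tw (a : ZMod 2) : ZMod 4 := if a = 0 then 0 else 2

lemma tw_add (a b : ZMod 2) : tw (a + b) = tw a + tw b := by revert a b; decide

lemma tw_zero : tw 0 = 0 := rfl

lemma tw_r2 (x : ZMod 4) : tw (r2 x) = 2 * x := by revert x; decide

lemma tw_inj {a b : ZMod 2} (h : tw a = tw b) : a = b := by revert a b; decide

lemma two_eq_zero' (x : ZMod 2) : x + x = 0 := by revert x; decide

lemma two_mul_eq_zero {x : ZMod 4} (h : r2 x = 0) : 2 * x = 0 := by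
  rw [← tw_r2, h, tw_zero]

section alt

variable {m m' : Type*} [Fintype m] [DecidableEq m] [Fintype m'] [DecidableEq m']

/-- alternating matrices -/
def Alt (U : Matrix m m (ZMod 2)) : Prop := Uᵀ = U ∧ ∀ i, U i i = 0

lemma sum_alt {U : Matrix m m (ZMod 2)} (hU : Alt U) (f : m → m → ZMod 2)
    (hf : ∀ i j, f i j = f j i) : ∑ i, ∑ j, U i j * f i j = 0 := by
  rw [← Finset.sum_product']
  apply Finset.sum_involution (fun p _ => (p.2, p.1))
  · rintro ⟨i, j⟩ _
    have h1 : U j i = U i j := congrFun (congrFun hU.1 i) j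
    show U i j * f i j + U j i * f j i = 0
    rw [h1, hf j i, two_eq_zero']
  · rintro ⟨i, j⟩ _ h0 heq
    have h1 : j = i := congrArg Prod.fst heq
    apply h0
    show U i j * f i j = 0
    rw [h1, hU.2, zero_mul]
  · intro p _
    simp
  · intro p _
    rfl

lemma alt_conj {U : Matrix m m (ZMod 2)} (hU : Alt U) (P : Matrix m' m (ZMod 2)) :
    Alt (P * U * Pᵀ) := by
  refine ⟨?_, fun i => ?_⟩
  · rw [transpose_mul, transpose_mul, transpose_transpose, hU.1, Matrix.mul_assoc]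
  · have h1 : (P * U * Pᵀ) i i = ∑ j, ∑ k, U j k * (P i j * P i k) := by
      rw [Matrix.mul_apply]
      simp only [Matrix.mul_apply, Finset.sum_mul, transpose_apply]
      rw [Finset.sum_comm]
      apply Finset.sum_congr rfl
      intro j _
      apply Finset.sum_congr rfl
      intro k _
      ring
    rw [h1]
    exact sum_alt hU _ (fun j k => mul_comm _ _)

lemma alt_trace {U V : Matrix m m (ZMod 2)} (hU : Alt U) (hV : Alt V) : (U * V).trace = 0 := by
  have h1 : (U * V).trace = ∑ i, ∑ j, U i j * V j i := by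
    unfold Matrix.trace
    simp only [Matrix.diag_apply, Matrix.mul_apply]
  rw [h1]
  apply sum_alt hU (fun i j => V j i)
  intro i j
  exact congrFun (congrFun hV.1 i) j

lemma alt_add (Θ : Matrix m m (ZMod 2)) : Alt (Θ + Θᵀ) := by
  refine ⟨?_, fun i => ?_⟩
  · rw [transpose_add, transpose_transpose, add_comm]
  · rw [Matrix.add_apply, transpose_apply, two_eq_zero']

lemma alt_inv {U C : Matrix m m (ZMod 2)} (hU : Alt U) (h : C * U = 1) : Alt C := by
  have h2 : U * C = 1 := mul_eq_one_comm.1 h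
  have h3 : Cᵀ = C := by
    have h4 : U * Cᵀ = 1 := by
      have := congrArg Matrix.transpose h
      rwa [transpose_mul, hU.1, transpose_one] at this
    calc Cᵀ = (C * U) * Cᵀ := by rw [h, one_mul]
      _ = C := by rw [mul_assoc, h4, mul_one]
  have h5 : C = C * U * Cᵀ := by rw [h3, h, one_mul]
  rw [h5]
  exact alt_conj hU C

end alt

section gs

variable {m m' : Type*} [Fintype m] [DecidableEq m] [Fintype m'] [DecidableEq m']

/-- the Gauss sum -/
def gs (M : Matrix m m (ZMod 2)) : ℤ := ∑ x : m → ZMod 2, sg (x ⬝ᵥ (M *ᵥ x))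

/-- the statement to be proved -/
def Good (Θ : Matrix m m (ZMod 4)) : Prop :=
  ∃ (k : ℕ) (a : ZMod 2), Fintype.card m = 2 * k ∧ gs (Θ.map r2) = 2 ^ k * sg a ∧
    ∀ C : Matrix m m (ZMod 4), C * (Θ + Θᵀ) = 1 → (C * Θᵀ * (C * Θᵀ)).trace = k + tw a

lemma gs_submatrix (e : m ≃ m') (M : Matrix m' m' (ZMod 2)) : gs (M.submatrix e e) = gs M := by
  unfold gs
  apply Fintype.sum_equiv (Equiv.arrowCongr e (Equiv.refl (ZMod 2)))
  intro x
  congr 1
  simp only [dotProduct, mulVec, submatrix_apply]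
  rw [← e.sum_comp]
  apply Finset.sum_congr rfl
  intro i _
  rw [← e.sum_comp]
  simp [Equiv.arrowCongr]

lemma good_equiv (e : m ≃ m') {Θ : Matrix m' m' (ZMod 4)} (h : Good (Θ.submatrix e e)) :
    Good Θ := by
  obtain ⟨k, a, h1, h2, h3⟩ := h
  refine ⟨k, a, ?_, ?_, ?_⟩
  · rw [← h1, Fintype.card_congr e]
  · rw [← h2, ← gs_submatrix e]
    rfl
  · intro C hC
    have h4 := h3 (C.submatrix e e) (by
      have h5 : Θ.submatrix e e + (Θ.submatrix e e)ᵀ = (Θ + Θᵀ).submatrix e e := rfl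
      rw [h5, submatrix_mul_equiv, hC, submatrix_one_equiv])
    rw [← h4]
    have h6 : (Θ.submatrix e e)ᵀ = Θᵀ.submatrix e e := rfl
    rw [h6, submatrix_mul_equiv, submatrix_mul_equiv]
    unfold Matrix.trace
    simp only [Matrix.diag_apply, submatrix_apply]
    exact (e.sum_comp (fun i => (C * Θᵀ * (C * Θᵀ)) i i)).symm

lemma good_congr {P Q : Matrix m m (ZMod 4)} (h1 : P * Q = 1) {Θ : Matrix m m (ZMod 4)}
    (h : Good (Pᵀ * Θ * P)) : Good Θ := by
  have h2 : Q * P = 1 := mul_eq_one_comm.1 h1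
  obtain ⟨k, a, h3, h4, h5⟩ := h
  refine ⟨k, a, h3, ?_, ?_⟩
  · rw [← h4]
    unfold gs
    have e1 : (P.map r2) * (Q.map r2) = 1 := by
      rw [← Matrix.map_mul, h1]
      exact Matrix.map_one _ (map_zero _) (map_one _)
    have e2 : (Q.map r2) * (P.map r2) = 1 := mul_eq_one_comm.1 e1
    symm
    apply Fintype.sum_equiv
      { toFun := fun x => (P.map r2) *ᵥ x
        invFun := fun x => (Q.map r2) *ᵥ x
        left_inv := fun x => by simp [mulVec_mulVec, e2]
        right_inv := fun x => by simp [mulVec_mulVec, e1] }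
    intro x
    congr 1
    show _ = ((P.map r2) *ᵥ x) ⬝ᵥ ((Θ.map r2) *ᵥ ((P.map r2) *ᵥ x))
    rw [Matrix.map_mul, Matrix.map_mul, transpose_map, ← mulVec_mulVec, ← mulVec_mulVec,
      dotProduct_mulVec, vecMul_transpose]
  · intro C hC
    have h6 := h5 (Q * C * Qᵀ) (by
      have e1 : Qᵀ * Pᵀ = 1 := by rw [← transpose_mul, h1, transpose_one]
      have e2 : Pᵀ * Θ * P + (Pᵀ * Θ * P)ᵀ = Pᵀ * (Θ + Θᵀ) * P := by
        rw [transpose_mul, transpose_mul, transpose_transpose, mul_add, add_mul, mul_assoc Pᵀ Θᵀ P]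
      rw [e2]
      calc Q * C * Qᵀ * (Pᵀ * (Θ + Θᵀ) * P) = Q * C * (Qᵀ * Pᵀ) * (Θ + Θᵀ) * P := by
            simp only [mul_assoc]
        _ = Q * (C * (Θ + Θᵀ)) * P := by rw [e1, mul_one, mul_assoc Q C]
        _ = 1 := by rw [hC, mul_one, h2])
    rw [← h6]
    have e1 : Qᵀ * Pᵀ = 1 := by rw [← transpose_mul, h1, transpose_one]
    have e3 : Q * C * Qᵀ * (Pᵀ * Θ * P)ᵀ = Q * (C * Θᵀ) * P := by
      rw [transpose_mul, transpose_mul, transpose_transpose]
      calc Q * C * Qᵀ * (Pᵀ * (Θᵀ * P)) = Q * C * (Qᵀ * Pᵀ) * Θᵀ * P := by simp only [mul_assoc]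
        _ = Q * (C * Θᵀ) * P := by rw [e1, mul_one, mul_assoc Q C]
    rw [e3]
    have e4 : Q * (C * Θᵀ) * P * (Q * (C * Θᵀ) * P) = Q * (C * Θᵀ * (C * Θᵀ) * P) := by
      calc Q * (C * Θᵀ) * P * (Q * (C * Θᵀ) * P) = Q * (C * Θᵀ) * (P * Q) * (C * Θᵀ) * P := by
            simp only [mul_assoc]
        _ = Q * (C * Θᵀ * (C * Θᵀ) * P) := by rw [h1, mul_one]; simp only [mul_assoc]
    rw [e4, Matrix.trace_mul_comm Q, mul_assoc _ P Q, h1, mul_one]

end gs

end Pool.Agent.Y72.Ar
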