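import Pool.Agent.Y72.Ar.Gauss

/-!
# The Gauss sum of a nonsingular quadratic form over the field with two elements
-/

set_option autoImplicit false
set_option linter.unusedSectionVars false

namespace Pool.Agent.Y72.Ar

open Finset Matrix

section two

lemma gs_two (M : Matrix (Fin 2) (Fin 2) (ZMod 2)) :
    gs M = 1 + sg (M 1 1) + (sg (M 0 0) + sg (M 0 0 + M 0 1 + (M 1 0 + M 1 1))) := by
  unfold gs
  have h1 : ∀ x : Fin 2 → ZMod 2, x ⬝ᵥ (M *ᵥ x) =
      x 0 * (M 0 0 * x 0 + M 0 1 * x 1) + x 1 * (M 1 0 * x 0 + M 1 1 * x 1) := by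
    intro x
    simp [dotProduct, mulVec, Fin.sum_univ_two]
  simp only [h1]
  rw [← (finTwoArrowEquiv (ZMod 2)).symm.sum_comp, Fintype.sum_prod_type]
  have h2 : ∀ f : ZMod 2 → ℤ, ∑ x, f x = f 0 + f 1 := fun f => Fin.sum_univ_two f
  rw [h2, h2, h2]
  simp [finTwoArrowEquiv, sg]

lemma sg_two : ∀ a b c e : ZMod 2, b + c = 1 →
    1 + sg e + (sg a + sg (a + b + (c + e))) = 2 ^ 1 * sg (a * e) := by decide

lemma tr_two : ∀ a b c e : ZMod 4, r2 (b + c) = 1 →
    ((-2 * e) * a + (b + c) * b) * ((-2 * e) * a + (b + c) * b) +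
    ((-2 * e) * c + (b + c) * e) * ((b + c) * a + (-2 * a) * b) +
    (((b + c) * a + (-2 * a) * b) * ((-2 * e) * c + (b + c) * e) +
    ((b + c) * c + (-2 * a) * e) * ((b + c) * c + (-2 * a) * e)) =
      ((1 : ℕ) : ZMod 4) + tw (r2 a * r2 e) := by decide

lemma inv_two : ∀ a b c e : ZMod 4, r2 (b + c) = 1 →
    (-2 * e) * (a + a) + (b + c) * (c + b) = 1 ∧ (-2 * e) * (b + c) + (b + c) * (e + e) = 0 ∧
    (b + c) * (a + a) + (-2 * a) * (c + b) = 0 ∧
    (b + c) * (b + c) + (-2 * a) * (e + e) = 1 := by decide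

/-- the inverse of the matrix of the bilinear form in rank two -/
def iv2 (Θ : Matrix (Fin 2) (Fin 2) (ZMod 4)) : Matrix (Fin 2) (Fin 2) (ZMod 4) :=
  !![-2 * Θ 1 1, Θ 0 1 + Θ 1 0; Θ 0 1 + Θ 1 0, -2 * Θ 0 0]

lemma iv2_mul (Θ : Matrix (Fin 2) (Fin 2) (ZMod 4)) (h : r2 (Θ 0 1 + Θ 1 0) = 1) :
    iv2 Θ * (Θ + Θᵀ) = 1 := by
  obtain ⟨h1, h2, h3, h4⟩ := inv_two (Θ 0 0) (Θ 0 1) (Θ 1 0) (Θ 1 1) h
  ext i j
  fin_cases i <;> fin_cases j
  · simpa [iv2, Matrix.mul_apply, Fin.sum_univ_two] using h1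
  · simpa [iv2, Matrix.mul_apply, Fin.sum_univ_two] using h2
  · simpa [iv2, Matrix.mul_apply, Fin.sum_univ_two] using h3
  · simpa [iv2, Matrix.mul_apply, Fin.sum_univ_two] using h4

lemma good_two (Θ : Matrix (Fin 2) (Fin 2) (ZMod 4)) (h : r2 (Θ 0 1 + Θ 1 0) = 1) : Good Θ := by
  refine ⟨1, r2 (Θ 0 0) * r2 (Θ 1 1), by simp, ?_, ?_⟩
  · rw [gs_two]
    apply sg_two
    rw [Matrix.map_apply, Matrix.map_apply, ← map_add]
    exact h
  · intro C hC
    have h1 : C = iv2 Θ := by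
      have h2 := iv2_mul Θ h
      have h3 : (Θ + Θᵀ) * iv2 Θ = 1 := mul_eq_one_comm.1 h2
      calc C = C * ((Θ + Θᵀ) * iv2 Θ) := by rw [h3, mul_one]
        _ = iv2 Θ := by rw [← mul_assoc, hC, one_mul]
    rw [h1, ← tr_two (Θ 0 0) (Θ 0 1) (Θ 1 0) (Θ 1 1) h]
    simp only [Matrix.trace, Matrix.diag_apply, Fin.sum_univ_two, Matrix.mul_apply, iv2,
      Matrix.of_apply, Matrix.cons_val', Matrix.cons_val_zero, Matrix.cons_val_one,
      Matrix.transpose_apply, Matrix.cons_val_fin_one]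

end two

section block

variable {m m' : Type*} [Fintype m] [DecidableEq m] [Fintype m'] [DecidableEq m']

lemma trace_fb {R : Type*} [AddCommMonoid R] (A : Matrix m m R) (B : Matrix m m' R)
    (C : Matrix m' m R) (D : Matrix m' m' R) :
    (fromBlocks A B C D).trace = A.trace + D.trace := by
  simp [Matrix.trace, Fintype.sum_sum_type]

lemma quad_block (M1 : Matrix m m (ZMod 2)) (X : Matrix m m' (ZMod 2)) (M2 : Matrix m' m' (ZMod 2))
    (x : m → ZMod 2) (y : m' → ZMod 2) :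
    (Sum.elim x y) ⬝ᵥ (fromBlocks M1 X (-Xᵀ) M2 *ᵥ (Sum.elim x y)) =
      x ⬝ᵥ (M1 *ᵥ x) + y ⬝ᵥ (M2 *ᵥ y) := by
  have h1 : y ⬝ᵥ (Xᵀ *ᵥ x) = x ⬝ᵥ (X *ᵥ y) := by
    rw [mulVec_transpose, dotProduct_comm, dotProduct_mulVec]
  have h2 : (Sum.elim x y) ⬝ᵥ (fromBlocks M1 X (-Xᵀ) M2 *ᵥ (Sum.elim x y)) =
      x ⬝ᵥ (M1 *ᵥ x) + x ⬝ᵥ (X *ᵥ y) + (y ⬝ᵥ (-Xᵀ *ᵥ x) + y ⬝ᵥ (M2 *ᵥ y)) := by
    rw [fromBlocks_mulVec]
    simp only [dotProduct, Fintype.sum_sum_type, Sum.elim_inl, Sum.elim_inr, Sum.elim_comp_inl,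
      Sum.elim_comp_inr, Pi.add_apply, mul_add, Finset.sum_add_distrib]
  rw [h2, neg_mulVec, dotProduct_neg, h1]
  ring

lemma gs_block (M1 : Matrix m m (ZMod 2)) (X : Matrix m m' (ZMod 2)) (M2 : Matrix m' m' (ZMod 2)) :
    gs (fromBlocks M1 X (-Xᵀ) M2) = gs M1 * gs M2 := by
  unfold gs
  rw [← (Equiv.sumArrowEquivProdArrow m m' (ZMod 2)).symm.sum_comp, Fintype.sum_prod_type,
    Finset.sum_mul_sum]
  apply Finset.sum_congr rfl
  intro x _
  apply Finset.sum_congr rfl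
  intro y _
  rw [← sg_add, ← quad_block M1 X M2]
  rfl

lemma good_block {Θ1 : Matrix m m (ZMod 4)} {Θ2 : Matrix m' m' (ZMod 4)} (X : Matrix m m' (ZMod 4))
    {C1 : Matrix m m (ZMod 4)} {C2 : Matrix m' m' (ZMod 4)} (hC1 : C1 * (Θ1 + Θ1ᵀ) = 1)
    (hC2 : C2 * (Θ2 + Θ2ᵀ) = 1) (h1 : Good Θ1) (h2 : Good Θ2) :
    Good (fromBlocks Θ1 X (-Xᵀ) Θ2) := by
  obtain ⟨k1, a1, c1, g1, t1⟩ := h1
  obtain ⟨k2, a2, c2, g2, t2⟩ := h2
  refine ⟨k1 + k2, a1 + a2, ?_, ?_, ?_⟩
  · rw [Fintype.card_sum, c1, c2]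
    ring
  · have e1 : (fromBlocks Θ1 X (-Xᵀ) Θ2).map r2 =
        fromBlocks (Θ1.map r2) (X.map r2) (-(X.map r2)ᵀ) (Θ2.map r2) := by
      rw [fromBlocks_map]
      congr 1
      ext i j
      simp
    rw [e1, gs_block, g1, g2, sg_add, pow_add]
    ring
  · intro C hC
    have e1 : fromBlocks Θ1 X (-Xᵀ) Θ2 + (fromBlocks Θ1 X (-Xᵀ) Θ2)ᵀ =
        fromBlocks (Θ1 + Θ1ᵀ) 0 0 (Θ2 + Θ2ᵀ) := by
      rw [fromBlocks_transpose, fromBlocks_add]
      simp
    have e2 : C = fromBlocks C1 0 0 C2 := by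
      rw [e1] at hC
      have h3 : fromBlocks C1 0 0 C2 * fromBlocks (Θ1 + Θ1ᵀ) 0 0 (Θ2 + Θ2ᵀ) = 1 := by
        rw [fromBlocks_multiply]
        simp [hC1, hC2, fromBlocks_one]
      have h4 := mul_eq_one_comm.1 h3
      calc C = C * (fromBlocks (Θ1 + Θ1ᵀ) 0 0 (Θ2 + Θ2ᵀ) * fromBlocks C1 0 0 C2) := by
            rw [h4, mul_one]
        _ = fromBlocks C1 0 0 C2 := by rw [← mul_assoc, hC, one_mul]
    have e3 : C * (fromBlocks Θ1 X (-Xᵀ) Θ2)ᵀ =
        fromBlocks (C1 * Θ1ᵀ) (-(C1 * X)) (C2 * Xᵀ) (C2 * Θ2ᵀ) := by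
      rw [e2, fromBlocks_transpose, fromBlocks_multiply]
      simp
    rw [e3, fromBlocks_multiply, trace_fb, trace_add, trace_add, t1 C1 hC1, t2 C2 hC2]
    have e4 : (-(C1 * X) * (C2 * Xᵀ)).trace = -(C1 * (X * C2 * Xᵀ)).trace := by
      rw [Matrix.neg_mul, trace_neg, Matrix.mul_assoc, Matrix.mul_assoc, ← Matrix.mul_assoc X]
    have e5 : (C2 * Xᵀ * -(C1 * X)).trace = -(C1 * (X * C2 * Xᵀ)).trace := by
      rw [Matrix.mul_neg, trace_neg, Matrix.trace_mul_comm, Matrix.mul_assoc, Matrix.mul_assoc]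
    have e6 : 2 * (C1 * (X * C2 * Xᵀ)).trace = 0 := by
      apply two_mul_eq_zero
      have h5 : r2 (C1 * (X * C2 * Xᵀ)).trace =
          (C1.map r2 * (X.map r2 * C2.map r2 * (X.map r2)ᵀ)).trace := by
        rw [← transpose_map, ← Matrix.map_mul, ← Matrix.map_mul, ← Matrix.map_mul]
        exact AddMonoidHom.map_trace r2.toAddMonoidHom _
      have a1 : Alt (C1.map r2) := by
        apply alt_inv (alt_add (Θ1.map r2))
        rw [← transpose_map, ← Matrix.map_add r2 (map_add r2), ← Matrix.map_mul, hC1]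
        exact Matrix.map_one _ (map_zero _) (map_one _)
      have a2 : Alt (C2.map r2) := by
        apply alt_inv (alt_add (Θ2.map r2))
        rw [← transpose_map, ← Matrix.map_add r2 (map_add r2), ← Matrix.map_mul, hC2]
        exact Matrix.map_one _ (map_zero _) (map_one _)
      rw [h5]
      exact alt_trace a1 (alt_conj a2 _)
    rw [e4, e5, tw_add, Nat.cast_add]
    generalize (C1 * (X * C2 * Xᵀ)).trace = t at e6 ⊢
    linear_combination -e6

end block

section elim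

variable {m m' : Type*} [Fintype m] [DecidableEq m] [Fintype m'] [DecidableEq m']

lemma good_elim {a : Matrix m m (ZMod 4)} {b : Matrix m m' (ZMod 4)} {c : Matrix m' m (ZMod 4)}
    {d : Matrix m' m' (ZMod 4)} {C1 : Matrix m m (ZMod 4)} (hC1 : C1 * (a + aᵀ) = 1)
    (ha : Good a) {C : Matrix (m ⊕ m') (m ⊕ m') (ZMod 4)}
    (hC : C * (fromBlocks a b c d + (fromBlocks a b c d)ᵀ) = 1)
    (IH : ∀ Θ C2 : Matrix m' m' (ZMod 4), C2 * (Θ + Θᵀ) = 1 → Good Θ) :
    Good (fromBlocks a b c d) := by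
  obtain ⟨W, hW2⟩ : ∃ W : Matrix m m' (ZMod 4), (a + aᵀ) * W = b + cᵀ := by
    refine ⟨C1 * (b + cᵀ), ?_⟩
    rw [← Matrix.mul_assoc, mul_eq_one_comm.1 hC1, Matrix.one_mul]
  set P : Matrix (m ⊕ m') (m ⊕ m') (ZMod 4) := fromBlocks 1 (-W) 0 1 with hP
  set Q : Matrix (m ⊕ m') (m ⊕ m') (ZMod 4) := fromBlocks 1 W 0 1 with hQ
  have hPQ : P * Q = 1 := by
    rw [hP, hQ, fromBlocks_multiply]
    simp [fromBlocks_one]
  have hQP : Q * P = 1 := mul_eq_one_comm.1 hPQ
  apply good_congr hPQ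
  set X : Matrix m m' (ZMod 4) := b - a * W with hX
  set Θ2 : Matrix m' m' (ZMod 4) := d - c * W + Wᵀ * (a * W - b) with hΘ2
  have hY : -Wᵀ * a + c = -Xᵀ := by
    have h1 : Wᵀ * (a + aᵀ) = bᵀ + c := by
      have h2 := congrArg Matrix.transpose hW2
      rw [transpose_mul, transpose_add, transpose_add, transpose_transpose, transpose_transpose,
        add_comm aᵀ a] at h2
      exact h2
    rw [hX, transpose_sub, transpose_mul, Matrix.neg_mul]
    rw [Matrix.mul_add] at h1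
    have h3 : c = Wᵀ * a + Wᵀ * aᵀ - bᵀ := by rw [h1]; abel
    conv_lhs => rw [h3]
    abel
  have hconj : Pᵀ * fromBlocks a b c d * P = fromBlocks a X (-Xᵀ) Θ2 := by
    rw [hP, fromBlocks_transpose, fromBlocks_multiply, fromBlocks_multiply]
    congr 1
    · simp
    · simp only [transpose_one, transpose_zero, Matrix.one_mul, Matrix.zero_mul,
        add_zero, Matrix.mul_one, Matrix.mul_neg, hX]
      abel
    · simp only [transpose_one, transpose_neg, Matrix.one_mul,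
        add_zero, Matrix.mul_one, Matrix.mul_zero]
      exact hY
    · simp only [transpose_one, transpose_neg, Matrix.one_mul,
        Matrix.mul_one, Matrix.mul_neg, hΘ2, Matrix.add_mul, Matrix.neg_mul,
        Matrix.mul_sub, Matrix.mul_assoc]
      abel
  rw [hconj]
  have hC2 : ∃ C2 : Matrix m' m' (ZMod 4), C2 * (Θ2 + Θ2ᵀ) = 1 := by
    have h1 : (Q * C * Qᵀ) * (Pᵀ * (fromBlocks a b c d + (fromBlocks a b c d)ᵀ) * P) = 1 := by
      have e1 : Qᵀ * Pᵀ = 1 := by rw [← transpose_mul, hPQ, transpose_one]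
      calc Q * C * Qᵀ * (Pᵀ * (fromBlocks a b c d + (fromBlocks a b c d)ᵀ) * P) =
            Q * C * (Qᵀ * Pᵀ) * (fromBlocks a b c d + (fromBlocks a b c d)ᵀ) * P := by
              simp only [mul_assoc]
        _ = Q * (C * (fromBlocks a b c d + (fromBlocks a b c d)ᵀ)) * P := by
              rw [e1, mul_one, mul_assoc Q C]
        _ = 1 := by rw [hC, mul_one, hQP]
    have h2 : Pᵀ * (fromBlocks a b c d + (fromBlocks a b c d)ᵀ) * P =
        fromBlocks (a + aᵀ) 0 0 (Θ2 + Θ2ᵀ) := by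
      have h3 : Pᵀ * (fromBlocks a b c d + (fromBlocks a b c d)ᵀ) * P =
          Pᵀ * fromBlocks a b c d * P + (Pᵀ * fromBlocks a b c d * P)ᵀ := by
        rw [transpose_mul, transpose_mul, transpose_transpose, mul_add, add_mul,
          mul_assoc Pᵀ (fromBlocks a b c d)ᵀ P]
      rw [h3, hconj, fromBlocks_transpose, fromBlocks_add]
      simp
    rw [h2, ← fromBlocks_toBlocks (Q * C * Qᵀ), fromBlocks_multiply, ← fromBlocks_one,
      fromBlocks_inj] at h1
    exact ⟨_, by simpa using h1.2.2.2⟩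
  obtain ⟨C2, hC2⟩ := hC2
  exact good_block X hC1 hC2 ha (IH Θ2 C2 hC2)

end elim

section main

universe u

/-- **the Gauss sum of a nonsingular quadratic form** -/
theorem gauss_aux : ∀ (N : ℕ) (m : Type u) [Fintype m] [DecidableEq m], Fintype.card m = N →
    ∀ Θ C : Matrix m m (ZMod 4), C * (Θ + Θᵀ) = 1 → Good Θ := by
  intro N
  induction N using Nat.strong_induction_on with
  | _ N IH =>
  intro m _ _ hN Θ C hC
  rcases isEmpty_or_nonempty m with hm | ⟨⟨i0⟩⟩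
  · refine ⟨0, 0, by simp, ?_, ?_⟩
    · unfold gs
      rw [Fintype.sum_unique]
      simp [dotProduct, sg]
    · intro C _
      simp [Matrix.trace, tw]
  · obtain ⟨j, hj⟩ : ∃ j, r2 ((Θ + Θᵀ) i0 j) ≠ 0 := by
      by_contra hcon
      push Not at hcon
      have h0 : (Θ + Θᵀ) * C = 1 := mul_eq_one_comm.1 hC
      have h1 : ((Θ + Θᵀ) * C) i0 i0 = (1 : Matrix m m (ZMod 4)) i0 i0 := by rw [h0]
      rw [Matrix.mul_apply, Matrix.one_apply_eq] at h1
      have h2 := congrArg r2 h1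
      rw [map_sum, map_one] at h2
      have h3 : ∑ x, r2 ((Θ + Θᵀ) i0 x * C x i0) = 0 := by
        apply Finset.sum_eq_zero
        intro x _
        rw [map_mul, hcon x, zero_mul]
      rw [h3] at h2
      exact zero_ne_one h2
    have hj1 : r2 (Θ i0 j + Θ j i0) = 1 := by
      have h1 : ∀ x : ZMod 2, x ≠ 0 → x = 1 := by decide
      exact h1 _ hj
    have hij : i0 ≠ j := by
      rintro rfl
      apply hj
      rw [Matrix.add_apply, transpose_apply, map_add, two_eq_zero']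
    let e2 : Fin 2 ≃ {k : m // k = i0 ∨ k = j} :=
      { toFun := fun x => if x = 0 then ⟨i0, Or.inl rfl⟩ else ⟨j, Or.inr rfl⟩
        invFun := fun k => if k.1 = i0 then 0 else 1
        left_inv := by
          intro x
          fin_cases x
          · simp
          · simp [hij.symm]
        right_inv := by
          rintro ⟨k, hk⟩
          rcases hk with rfl | rfl
          · simp
          · simp [hij.symm] }
    let e := Equiv.sumCompl (fun k : m => k = i0 ∨ k = j)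
    apply good_equiv e
    rw [← fromBlocks_toBlocks (Θ.submatrix e e)]
    set a := (Θ.submatrix e e).toBlocks₁₁ with ha
    have ha2 : r2 ((a.submatrix e2 e2) 0 1 + (a.submatrix e2 e2) 1 0) = 1 := hj1
    have hga : Good a := good_equiv e2 (good_two _ ha2)
    have hC1 : (iv2 (a.submatrix e2 e2)).submatrix e2.symm e2.symm * (a + aᵀ) = 1 := by
      have h1 := iv2_mul _ ha2
      have h2 := congrArg (fun Z => Z.submatrix e2.symm e2.symm) h1
      rw [submatrix_one_equiv, ← submatrix_mul_equiv _ _ _ e2.symm] at h2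
      rw [← h2]
      congr 1
      ext x y
      simp
    refine good_elim hC1 hga (C := C.submatrix e e) ?_ ?_
    · rw [fromBlocks_toBlocks]
      have h5 : Θ.submatrix e e + (Θ.submatrix e e)ᵀ = (Θ + Θᵀ).submatrix e e := rfl
      rw [h5, submatrix_mul_equiv, hC, submatrix_one_equiv]
    · intro Θ' C' h'
      refine IH (Fintype.card {k : m // ¬ (k = i0 ∨ k = j)}) ?_ _ rfl Θ' C' h'
      rw [← hN]
      apply Fintype.card_subtype_lt (x := i0)
      exact fun h => h (Or.inl rfl)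

/-- **the Gauss sum of a nonsingular quadratic form** -/
theorem gauss {m : Type u} [Fintype m] [DecidableEq m] {Θ C : Matrix m m (ZMod 4)}
    (h : C * (Θ + Θᵀ) = 1) : Good Θ := gauss_aux _ m rfl Θ C h

end main

end Pool.Agent.Y72.Ar
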