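import Pool.Agent.Y72.Ar.Gauss2

/-!
# Trace forms of quadratic forms over group rings
-/

set_option autoImplicit false
set_option linter.unusedSectionVars false

namespace Pool.Agent.Y72.Ar

open Finset Matrix MulOpposite

section star

variable {R : Type*} [CommRing R] {Γ : Type*} [Group Γ] {I : Type*} [Fintype I] [DecidableEq I]

/-- the anti-automorphism `g ↦ g⁻¹` -/
noncomputable def iv : MonoidAlgebra R Γ →+* (MonoidAlgebra R Γ)ᵐᵒᵖ :=
  (MonoidAlgebra.lift R ((MonoidAlgebra R Γ)ᵐᵒᵖ) Γ
    { toFun := fun g => op (MonoidAlgebra.single g⁻¹ 1)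
      map_one' := by rw [inv_one]; rfl
      map_mul' := by
        intro x y
        rw [_root_.mul_inv_rev, ← op_mul, MonoidAlgebra.single_mul_single, one_mul] }).toRingHom

lemma iv_single (g : Γ) (a : R) :
    iv (MonoidAlgebra.single g a) = op (MonoidAlgebra.single g⁻¹ a) := by
  have h : iv (MonoidAlgebra.single g a) = a • op (MonoidAlgebra.single g⁻¹ (1 : R)) :=
    MonoidAlgebra.lift_single _ _ _
  rw [h, ← op_smul, MonoidAlgebra.smul_single, smul_eq_mul, mul_one]

lemma iv_coeff (x : MonoidAlgebra R Γ) (g : Γ) : (unop (iv x)).coeff g = x.coeff g⁻¹ := by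
  classical
  induction x using MonoidAlgebra.induction_linear with
  | zero => simp
  | add x y hx hy => rw [map_add, unop_add, MonoidAlgebra.coeff_add, MonoidAlgebra.coeff_add,
      Finsupp.add_apply, Finsupp.add_apply, hx, hy]
  | single h a =>
    rw [iv_single, unop_op, MonoidAlgebra.coeff_single, MonoidAlgebra.coeff_single,
      Finsupp.single_apply, Finsupp.single_apply]
    by_cases h1 : h⁻¹ = g
    · rw [if_pos h1, if_pos (by rw [← h1, inv_inv])]
    · rw [if_neg h1, if_neg (fun h2 => h1 (by rw [h2, inv_inv]))]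

/-- the conjugate transpose -/
noncomputable def st (A : Matrix I I (MonoidAlgebra R Γ)) : Matrix I I (MonoidAlgebra R Γ) :=
  Matrix.of fun i j => unop (iv (A j i))

lemma st_coeff (A : Matrix I I (MonoidAlgebra R Γ)) (i j : I) (g : Γ) :
    (st A i j).coeff g = (A j i).coeff g⁻¹ := iv_coeff _ _

lemma st_mul (A B : Matrix I I (MonoidAlgebra R Γ)) : st (A * B) = st B * st A := by
  ext1 i j
  rw [Matrix.mul_apply]
  show unop (iv ((A * B) j i)) = ∑ k, unop (iv (B k i)) * unop (iv (A j k))
  rw [Matrix.mul_apply, map_sum, unop_sum]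
  apply Finset.sum_congr rfl
  intro k _
  rw [map_mul, unop_mul]

lemma st_one : st (1 : Matrix I I (MonoidAlgebra R Γ)) = 1 := by
  ext1 i j
  show unop (iv ((1 : Matrix I I (MonoidAlgebra R Γ)) j i)) = _
  rw [Matrix.one_apply, Matrix.one_apply]
  by_cases h : j = i
  · rw [if_pos h, if_pos h.symm, map_one, unop_one]
  · rw [if_neg h, if_neg (fun h1 => h h1.symm), map_zero, unop_zero]

lemma st_add (A B : Matrix I I (MonoidAlgebra R Γ)) : st (A + B) = st A + st B := by
  ext1 i j
  show unop (iv ((A + B) j i)) = unop (iv (A j i)) + unop (iv (B j i))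
  rw [Matrix.add_apply, map_add, unop_add]

lemma st_st (A : Matrix I I (MonoidAlgebra R Γ)) : st (st A) = A := by
  ext1 i j
  apply MonoidAlgebra.coeff_injective
  ext g
  rw [st_coeff, st_coeff, inv_inv]

/-- the functional of a function on the group -/
noncomputable def ph (f : Γ → R) (x : MonoidAlgebra R Γ) : R := x.coeff.sum fun g a => a * f g

lemma ph_add (f : Γ → R) (x y : MonoidAlgebra R Γ) : ph f (x + y) = ph f x + ph f y := by
  unfold ph
  rw [MonoidAlgebra.coeff_add]
  exact Finsupp.sum_add_index' (fun _ => zero_mul _) (fun _ _ _ => add_mul _ _ _)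

lemma ph_zero (f : Γ → R) : ph f (0 : MonoidAlgebra R Γ) = 0 := by
  unfold ph
  rw [MonoidAlgebra.coeff_zero]
  exact Finsupp.sum_zero_index

lemma ph_single (f : Γ → R) (g : Γ) (a : R) : ph f (MonoidAlgebra.single g a) = a * f g := by
  unfold ph
  rw [MonoidAlgebra.coeff_single, Finsupp.sum_single_index (zero_mul _)]

lemma ph_sum {J : Type*} (s : Finset J) (f : Γ → R) (x : J → MonoidAlgebra R Γ) :
    ph f (∑ j ∈ s, x j) = ∑ j ∈ s, ph f (x j) := by
  classical
  induction s using Finset.induction_on with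
  | empty => rw [Finset.sum_empty, Finset.sum_empty, ph_zero]
  | insert a s ha ih => rw [Finset.sum_insert ha, Finset.sum_insert ha, ph_add, ih]

lemma ph_mul_comm {f : Γ → R} (hf : ∀ x y, f (x * y) = f (y * x)) (x y : MonoidAlgebra R Γ) :
    ph f (x * y) = ph f (y * x) := by
  induction x using MonoidAlgebra.induction_linear with
  | zero => rw [zero_mul, mul_zero]
  | add x x' hx hx' => rw [add_mul, mul_add, ph_add, ph_add, hx, hx']
  | single g a =>
    induction y using MonoidAlgebra.induction_linear with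
    | zero => rw [zero_mul, mul_zero]
    | add y y' hy hy' => rw [add_mul, mul_add, ph_add, ph_add, hy, hy']
    | single h b =>
      rw [MonoidAlgebra.single_mul_single, MonoidAlgebra.single_mul_single, ph_single, ph_single,
        hf g h, mul_comm a b]

lemma ph_iv (f : Γ → R) (x : MonoidAlgebra R Γ) : ph f (unop (iv x)) = ph (fun g => f g⁻¹) x := by
  induction x using MonoidAlgebra.induction_linear with
  | zero => rw [map_zero, unop_zero, ph_zero, ph_zero]
  | add x y hx hy => rw [map_add, unop_add, ph_add, ph_add, hx, hy]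
  | single g a => rw [iv_single, unop_op, ph_single, ph_single]

lemma ph_fun_add (f f' : Γ → R) (x : MonoidAlgebra R Γ) :
    ph (fun g => f g + f' g) x = ph f x + ph f' x := by
  unfold ph
  rw [Finsupp.sum, Finsupp.sum, Finsupp.sum, ← Finset.sum_add_distrib]
  apply Finset.sum_congr rfl
  intro g _
  rw [mul_add]

lemma ph_fun_smul (c : R) (f : Γ → R) (x : MonoidAlgebra R Γ) :
    ph (fun g => c * f g) x = c * ph f x := by
  unfold ph
  rw [Finsupp.sum, Finsupp.sum, Finset.mul_sum]
  apply Finset.sum_congr rfl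
  intro g _
  ring

/-- the functional on matrices -/
noncomputable def Fn (f : Γ → R) (X : Matrix I I (MonoidAlgebra R Γ)) : R := ∑ i, ph f (X i i)

lemma Fn_add (f : Γ → R) (X Y : Matrix I I (MonoidAlgebra R Γ)) :
    Fn f (X + Y) = Fn f X + Fn f Y := by
  unfold Fn
  rw [← Finset.sum_add_distrib]
  apply Finset.sum_congr rfl
  intro i _
  rw [Matrix.add_apply, ph_add]

lemma Fn_sub (f : Γ → R) (X Y : Matrix I I (MonoidAlgebra R Γ)) :
    Fn f (X - Y) = Fn f X - Fn f Y := by
  rw [eq_sub_iff_add_eq, ← Fn_add, sub_add_cancel]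

lemma Fn_mul_comm {f : Γ → R} (hf : ∀ x y, f (x * y) = f (y * x))
    (X Y : Matrix I I (MonoidAlgebra R Γ)) : Fn f (X * Y) = Fn f (Y * X) := by
  unfold Fn
  simp only [Matrix.mul_apply, ph_sum]
  rw [Finset.sum_comm]
  apply Finset.sum_congr rfl
  intro i _
  apply Finset.sum_congr rfl
  intro j _
  exact ph_mul_comm hf _ _

lemma Fn_st (f : Γ → R) (X : Matrix I I (MonoidAlgebra R Γ)) :
    Fn f (st X) = Fn (fun g => f g⁻¹) X :=
  Finset.sum_congr rfl fun _ _ => ph_iv f _

lemma Fn_one (f : Γ → R) (hf : f 1 = 0) : Fn f (1 : Matrix I I (MonoidAlgebra R Γ)) = 0 := by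
  unfold Fn
  apply Finset.sum_eq_zero
  intro i _
  rw [Matrix.one_apply_eq, MonoidAlgebra.one_def, ph_single, hf, mul_zero]

lemma Fn_fun_add (f f' : Γ → R) (X : Matrix I I (MonoidAlgebra R Γ)) :
    Fn (fun g => f g + f' g) X = Fn f X + Fn f' X := by
  unfold Fn
  rw [← Finset.sum_add_distrib]
  exact Finset.sum_congr rfl fun i _ => ph_fun_add _ _ _

lemma Fn_fun_smul (c : R) (f : Γ → R) (X : Matrix I I (MonoidAlgebra R Γ)) :
    Fn (fun g => c * f g) X = c * Fn f X := by
  unfold Fn
  rw [Finset.mul_sum]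
  exact Finset.sum_congr rfl fun i _ => ph_fun_smul _ _ _

end star

section form

variable {Γ : Type*} [Group Γ] {I : Type*} [Fintype I] [DecidableEq I]

/-- the data of a nonsingular form -/
structure Frm (Θ C : Matrix I I (MonoidAlgebra (ZMod 4) Γ)) : Prop where
  left : C * (Θ + st Θ) = 1
  right : (Θ + st Θ) * C = 1

variable {Θ C : Matrix I I (MonoidAlgebra (ZMod 4) Γ)}

lemma Frm.st_C (h : Frm Θ C) : st C = C := by
  have h1 : (Θ + st Θ) * st C = 1 := by
    have h2 := congrArg st h.left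
    rw [st_mul, st_one, st_add, st_st, add_comm (st Θ) Θ] at h2
    exact h2
  calc st C = C * (Θ + st Θ) * st C := by rw [h.left, one_mul]
    _ = C := by rw [mul_assoc, h1, mul_one]

lemma Frm.CΘ (h : Frm Θ C) : C * Θ = 1 - C * st Θ := by
  rw [eq_sub_iff_add_eq, ← mul_add, h.left]

lemma Frm.F_T (h : Frm Θ C) {u : Γ → ZMod 4} (hu : ∀ x y, u (x * y) = u (y * x)) (hu1 : u 1 = 0) :
    Fn (fun g => u g⁻¹) (C * st Θ) = - Fn u (C * st Θ) := by
  rw [← Fn_st, st_mul, st_st, h.st_C, Fn_mul_comm hu, h.CΘ, Fn_sub, Fn_one u hu1, zero_sub]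

lemma Frm.F_TT (h : Frm Θ C) {u : Γ → ZMod 4} (hu : ∀ x y, u (x * y) = u (y * x)) (hu1 : u 1 = 0) :
    Fn (fun g => u g⁻¹) (C * st Θ * (C * st Θ)) =
      Fn u (C * st Θ * (C * st Θ)) - 2 * Fn u (C * st Θ) := by
  rw [← Fn_st, st_mul, st_mul, st_st, h.st_C, mul_assoc Θ C, Fn_mul_comm hu,
    show C * (Θ * C) * Θ = C * Θ * (C * Θ) by simp only [mul_assoc], h.CΘ]
  have e1 : (1 - C * st Θ) * (1 - C * st Θ) = 1 - C * st Θ - C * st Θ +
      C * st Θ * (C * st Θ) := by
    rw [sub_mul, mul_sub, mul_sub, one_mul, mul_one, one_mul]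
    abel
  rw [e1, Fn_add, Fn_sub, Fn_sub, Fn_one u hu1]
  ring

/-- the even part -/
lemma Frm.F_even (h : Frm Θ C) {u : Γ → ZMod 4} (hu : ∀ x y, u (x * y) = u (y * x)) (hu1 : u 1 = 0)
    (hinv : ∀ x, u x⁻¹ = u x) : 2 * Fn u (C * st Θ * (C * st Θ)) = 0 := by
  have hf : (fun g => u g⁻¹) = u := funext hinv
  have h1 := h.F_T hu hu1
  rw [hf] at h1
  have h2 : 2 * Fn u (C * st Θ) = 0 := by
    linear_combination h1
  have h3 : C * Θ * (C * st Θ) = C * st Θ - C * st Θ * (C * st Θ) := by
    rw [h.CΘ, sub_mul, one_mul]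
  have h4 : C = C * Θ * C + C * st Θ * C := by
    rw [← add_mul, ← mul_add, h.left, one_mul]
  have h5 : st (C * st Θ * C * Θ * (C * st Θ)) = Θ * C * (st Θ * (C * Θ * C)) := by
    simp only [st_mul, st_st, h.st_C, mul_assoc]
  have h6 : Fn u (C * st Θ * C * Θ * (C * st Θ)) = Fn u (C * Θ * C * Θ * (C * st Θ)) := by
    have e1 : Fn u (st (C * st Θ * C * Θ * (C * st Θ))) = Fn u (C * st Θ * C * Θ * (C * st Θ)) := by
      rw [Fn_st, hf]
    rw [← e1, h5, Fn_mul_comm hu (Θ * C)]
    rw [show st Θ * (C * Θ * C) * (Θ * C) = st Θ * (C * Θ * C * Θ * C) by simp only [mul_assoc],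
      Fn_mul_comm hu (st Θ)]
    simp only [mul_assoc]
  have h7 : C * Θ * (C * st Θ) = C * Θ * C * Θ * (C * st Θ) + C * st Θ * C * Θ * (C * st Θ) := by
    conv_lhs => rw [h4]
    have h8 : C * Θ * C + C * st Θ * C = C := h4.symm
    rw [h8, ← add_mul, ← add_mul, h8]
  have h9 : 2 * Fn u (C * Θ * (C * st Θ)) = 0 := by
    rw [h7, Fn_add, h6]
    have : ∀ x : ZMod 4, 2 * (x + x) = 0 := by decide
    exact this _
  have h10 : Fn u (C * st Θ * (C * st Θ)) = Fn u (C * st Θ) - Fn u (C * Θ * (C * st Θ)) := by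
    rw [h3, Fn_sub]
    ring
  rw [h10, mul_sub, h2, h9, sub_zero]

/-- the Frobenius relation modulo two -/
lemma frob {u : Γ → ZMod 4} (hu : ∀ x y, u (x * y) = u (y * x))
    (X : Matrix I I (MonoidAlgebra (ZMod 4) Γ)) :
    2 * Fn u (X * X) = 2 * Fn (fun g => u (g * g)) X := by
  have hadd : ∀ X Y : Matrix I I (MonoidAlgebra (ZMod 4) Γ),
      2 * Fn u (X * X) = 2 * Fn (fun g => u (g * g)) X →
      2 * Fn u (Y * Y) = 2 * Fn (fun g => u (g * g)) Y →
      2 * Fn u ((X + Y) * (X + Y)) = 2 * Fn (fun g => u (g * g)) (X + Y) := by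
    intro X Y hX hY
    rw [add_mul, mul_add, mul_add, Fn_add, Fn_add, Fn_add, Fn_add, Fn_mul_comm hu Y X, mul_add 2,
      mul_add 2, mul_add 2, hX, hY, mul_add 2]
    have : ∀ a b c : ZMod 4, 2 * a + 2 * b + (2 * b + 2 * c) = 2 * a + 2 * c := by decide
    exact this _ _ _
  have hzero : 2 * Fn u ((0 : Matrix I I (MonoidAlgebra (ZMod 4) Γ)) * 0) =
      2 * Fn (fun g => u (g * g)) (0 : Matrix I I (MonoidAlgebra (ZMod 4) Γ)) := by
    have h0 : ∀ f : Γ → ZMod 4, Fn f (0 : Matrix I I (MonoidAlgebra (ZMod 4) Γ)) = 0 := by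
      intro f
      unfold Fn
      apply Finset.sum_eq_zero
      intro i _
      rw [Matrix.zero_apply, ph_zero]
    rw [mul_zero, h0, h0]
  induction X using Matrix.induction_on' with
  | h_zero => exact hzero
  | h_add X Y hX hY => exact hadd X Y hX hY
  | h_std_basis i j x =>
    induction x using MonoidAlgebra.induction_linear with
    | zero =>
      rw [show (Matrix.single i j (0 : MonoidAlgebra (ZMod 4) Γ)) = 0 from Matrix.single_zero i j]
      exact hzero
    | add x y hx hy =>
      rw [Matrix.single_add]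
      exact hadd _ _ hx hy
    | single g a =>
      by_cases hij : i = j
      · subst hij
        rw [Matrix.single_mul_single_same, MonoidAlgebra.single_mul_single]
        have h1 : ∀ (f : Γ → ZMod 4) (g : Γ) (a : ZMod 4),
            Fn f (Matrix.single i i (MonoidAlgebra.single g a)) = a * f g := by
          intro f g a
          unfold Fn
          rw [Finset.sum_eq_single i]
          · rw [Matrix.single_apply_same, ph_single]
          · intro k _ hk
            rw [Matrix.single_apply_of_ne _ _ _ _ _ (by tauto), ph_zero]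
          · intro h
            exact absurd (Finset.mem_univ _) h
        rw [h1, h1]
        have : ∀ a b : ZMod 4, 2 * (a * a * b) = 2 * (a * b) := by decide
        exact this _ _
      · rw [Matrix.single_mul_single_of_ne _ _ _ _ (Ne.symm hij)]
        have h1 : Fn (fun g => u (g * g)) (Matrix.single i j (MonoidAlgebra.single g a)) = 0 := by
          unfold Fn
          apply Finset.sum_eq_zero
          intro k _
          rw [Matrix.single_apply_of_ne _ _ _ _ _ (by
            rintro ⟨h1, h2⟩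
            exact hij (h1.trans h2.symm)), ph_zero]
        have h2 : Fn u (0 : Matrix I I (MonoidAlgebra (ZMod 4) Γ)) = 0 := by
          unfold Fn
          apply Finset.sum_eq_zero
          intro i _
          rw [Matrix.zero_apply, ph_zero]
        rw [h1, h2]

end form

end Pool.Agent.Y72.Ar
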