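import Pool.Agent.Y72.Ar.Grp

/-!
# The vanishing theorem for the trace form
-/

set_option autoImplicit false
set_option linter.unusedSectionVars false

namespace Pool.Agent.Y72.Ar

open Finset Matrix
open scoped Classical

section half

variable {Γ : Type*} [Group Γ]

/-- half of the elements which are not conjugate to their inverse -/
def lt (x : Γ) : Prop := WellOrderingRel (ConjClasses.mk x) (ConjClasses.mk x⁻¹)

lemma mk_comm (x y : Γ) : ConjClasses.mk (x * y) = ConjClasses.mk (y * x) := by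
  rw [ConjClasses.mk_eq_mk_iff_isConj, isConj_iff]
  exact ⟨y, by group⟩

lemma lt_comm (x y : Γ) : lt (x * y) ↔ lt (y * x) := by
  unfold lt
  rw [mk_comm x y, _root_.mul_inv_rev, _root_.mul_inv_rev, mk_comm y⁻¹ x⁻¹]

lemma lt_asymm {x : Γ} (h : lt x) : ¬ lt x⁻¹ := by
  intro h1
  unfold lt at h h1
  rw [inv_inv] at h1
  exact asymm_of WellOrderingRel h h1

lemma not_lt_real {x g : Γ} (h : g * x * g⁻¹ = x⁻¹) : ¬ lt x := by
  intro h1
  unfold lt at h1
  have h2 : ConjClasses.mk x = ConjClasses.mk x⁻¹ := by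
    rw [ConjClasses.mk_eq_mk_iff_isConj, isConj_iff]
    exact ⟨g, h⟩
  rw [← h2] at h1
  exact irrefl_of WellOrderingRel _ h1

lemma lt_tri (x : Γ) : lt x ∨ lt x⁻¹ ∨ ∃ g, g * x * g⁻¹ = x⁻¹ := by
  rcases trichotomous_of WellOrderingRel (ConjClasses.mk x) (ConjClasses.mk x⁻¹) with h | h | h
  · exact Or.inl h
  · right; right
    rw [ConjClasses.mk_eq_mk_iff_isConj, isConj_iff] at h
    exact h
  · right; left
    unfold lt
    rw [inv_inv]
    exact h

lemma real_sq {x g : Γ} (h : g * x * g⁻¹ = x⁻¹) : g * (x * x) * g⁻¹ = (x * x)⁻¹ := by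
  have h1 : g * (x * x) * g⁻¹ = (g * x * g⁻¹) * (g * x * g⁻¹) := by group
  rw [h1, h, _root_.mul_inv_rev]

lemma real_inv {x g : Γ} (h : g * x * g⁻¹ = x⁻¹) : g * x⁻¹ * g⁻¹ = x⁻¹⁻¹ := by
  have h1 : g * x⁻¹ * g⁻¹ = (g * x * g⁻¹)⁻¹ := by group
  rw [h1, h]

end half

section main

variable {Γ : Type*} [Group Γ] {I : Type*} [Fintype I] [DecidableEq I]
  {Θ C : Matrix I I (MonoidAlgebra (ZMod 4) Γ)}

/-- **the vanishing theorem** -/
theorem Frm.main (h : Frm Θ C) {f : Γ → ZMod 4} (hf : ∀ x y, f (x * y) = f (y * x))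
    (hinv : ∀ x, f x⁻¹ = f x) (hf1 : f 1 = 0) (hsq : ∀ x, 2 * f (x * x) = 2 * f x)
    (hre : ∀ x g, g * x * g⁻¹ = x⁻¹ → 2 * f x = 0) :
    Fn f (C * st Θ * (C * st Θ)) = 0 := by
  set T := C * st Θ with hT
  have hl1 : ¬ lt (1 : Γ) := not_lt_real (g := 1) (by simp)
  set fp : Γ → ZMod 4 := fun x => if lt x then f x else 0 with hfp
  set fr : Γ → ZMod 4 := fun x => if lt x ∨ lt x⁻¹ then 0 else f x with hfr
  set hh : Γ → ZMod 4 := fun x => if fr x = 0 then 0 else 1 with hhh
  have hfpc : ∀ x y, fp (x * y) = fp (y * x) := by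
    intro x y
    simp only [hfp]
    rw [hf x y]
    simp only [lt_comm x y]
  have hfp1 : fp 1 = 0 := if_neg hl1
  have hfrc : ∀ x y, fr (x * y) = fr (y * x) := by
    intro x y
    simp only [hfr]
    rw [hf x y]
    have e1 : lt (x * y)⁻¹ ↔ lt (y * x)⁻¹ := by
      rw [_root_.mul_inv_rev, _root_.mul_inv_rev]
      exact lt_comm _ _
    simp only [lt_comm x y, e1]
  have hfr2 : ∀ x, 2 * fr x = 0 := by
    intro x
    simp only [hfr]
    by_cases h1 : lt x ∨ lt x⁻¹
    · rw [if_pos h1, mul_zero]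
    · rw [if_neg h1]
      push Not at h1
      rcases lt_tri x with h2 | h2 | ⟨g, h2⟩
      · exact absurd h2 h1.1
      · exact absurd h2 h1.2
      · exact hre x g h2
  have hfrh : ∀ x, fr x = 2 * hh x := by
    intro x
    have h1 : ∀ a : ZMod 4, 2 * a = 0 → a = 2 * (if a = 0 then 0 else 1) := by decide
    exact h1 _ (hfr2 x)
  have hfrinv : ∀ x, fr x⁻¹ = fr x := by
    intro x
    simp only [hfr, inv_inv, hinv]
    by_cases h1 : lt x ∨ lt x⁻¹
    · rw [if_pos h1, if_pos (Or.symm h1)]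
    · rw [if_neg h1, if_neg (fun h2 => h1 (Or.symm h2))]
  have hhc : ∀ x y, hh (x * y) = hh (y * x) := by
    intro x y
    simp only [hhh]
    rw [hfrc]
  have hhinv : ∀ x, hh x⁻¹ = hh x := by
    intro x
    simp only [hhh]
    rw [hfrinv]
  have hh1 : hh 1 = 0 := by
    have h1 : fr 1 = 0 := by
      simp only [hfr, inv_one]
      rw [if_neg (by tauto), hf1]
    simp only [hhh]
    rw [if_pos h1]
  have hdec : f = fun x => fp x + (fp x⁻¹ + 2 * hh x) := by
    funext x
    rw [← hfrh]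
    simp only [hfp, hfr]
    by_cases h1 : lt x
    · rw [if_pos h1, if_neg (lt_asymm h1), if_pos (Or.inl h1)]
      ring
    · by_cases h2 : lt x⁻¹
      · rw [if_neg h1, if_pos h2, if_pos (Or.inr h2), hinv]
        ring
      · rw [if_neg h1, if_neg h2, if_neg (by tauto)]
        ring
  have e1 : Fn f (T * T) = Fn fp (T * T) + (Fn fp (T * T) - 2 * Fn fp T + 0) := by
    conv_lhs => rw [hdec]
    rw [Fn_fun_add, Fn_fun_add, Fn_fun_smul, h.F_TT hfpc hfp1, h.F_even hhc hh1 hhinv]
  have e2 := frob (u := fp) hfpc T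
  set v : Γ → ZMod 4 := fun g => fp (g * g) + fp g with hv
  set u : Γ → ZMod 4 := fun g => if lt g then v g else 0 with hu
  have e3 : Fn f (T * T) = 2 * Fn v T := by
    rw [e1, hv, Fn_fun_add]
    have : ∀ a b c : ZMod 4, 2 * a = 2 * b → a + (a - 2 * c + 0) = 2 * (b + c) := by decide
    exact this _ _ _ e2
  have hvc : ∀ x y, v (x * y) = v (y * x) := by
    intro x y
    simp only [hv]
    rw [hfpc x y]
    congr 1
    calc fp (x * y * (x * y)) = fp (x * (y * x * y)) := by simp only [mul_assoc]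
      _ = fp (y * x * y * x) := hfpc _ _
      _ = fp (y * x * (y * x)) := by simp only [mul_assoc]
  have huc : ∀ x y, u (x * y) = u (y * x) := by
    intro x y
    simp only [hu]
    rw [hvc x y]
    simp only [lt_comm x y]
  have hu1 : u 1 = 0 := if_neg hl1
  have key : (fun g => 2 * v g) = fun g => 2 * (u g + u g⁻¹) := by
    funext g
    rcases lt_tri g with h1 | h1 | ⟨t, h1⟩
    · simp only [hu]
      rw [if_pos h1, if_neg (lt_asymm h1), add_zero]
    · have h0 : ¬ lt g := by
        intro h2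
        exact lt_asymm h2 h1
      simp only [hu]
      rw [if_neg h0, if_pos h1, zero_add]
      simp only [hv, hfp]
      rw [if_neg h0, if_pos h1, hinv, ← _root_.mul_inv_rev, hinv]
      rcases lt_tri (g * g) with h2 | h2 | ⟨t, h2⟩
      · rw [if_pos h2, if_neg (lt_asymm h2), add_zero, zero_add]
        exact hsq g
      · have h3 : ¬ lt (g * g) := fun h4 => lt_asymm h4 h2
        rw [if_neg h3, if_pos h2, add_zero, mul_zero, mul_add, hsq]
        have : ∀ a : ZMod 4, 0 = 2 * a + 2 * a := by decide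
        exact this _
      · rw [if_neg (not_lt_real h2), if_neg (not_lt_real (real_inv h2)), add_zero, mul_zero,
          zero_add, ← hsq, hre _ _ h2]
    · simp only [hu]
      rw [if_neg (not_lt_real h1), if_neg (not_lt_real (real_inv h1))]
      simp only [hv, hfp]
      rw [if_neg (not_lt_real h1), if_neg (not_lt_real (real_sq h1))]
  rw [e3, ← Fn_fun_smul, key, Fn_fun_smul, Fn_fun_add, h.F_T huc hu1, add_neg_cancel, mul_zero]

end main

end Pool.Agent.Y72.Ar
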