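import Pool.Agent.Y72.Ar.Rep

/-!
# Arf invariants of quadratic forms over group rings
-/

set_option autoImplicit false
set_option linter.unusedSectionVars false

namespace Pool.Agent.Y72.Ar

open Finset Matrix MulOpposite
open scoped commutatorElement

section arf

variable {m : Type*} [Fintype m] [DecidableEq m]

/-- the Arf invariant of the quadratic form `x ↦ xᵀ M x` over the field with two elements: the
value which the form takes more often -/
def arf (M : Matrix m m (ZMod 2)) : ZMod 2 :=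
  if Fintype.card {x : m → ZMod 2 // x ⬝ᵥ (M *ᵥ x) = 0} <
    Fintype.card {x : m → ZMod 2 // x ⬝ᵥ (M *ᵥ x) = 1} then 1 else 0

lemma gs_card (M : Matrix m m (ZMod 2)) :
    gs M = (Fintype.card {x : m → ZMod 2 // x ⬝ᵥ (M *ᵥ x) = 0} : ℤ) -
      Fintype.card {x : m → ZMod 2 // x ⬝ᵥ (M *ᵥ x) = 1} := by
  unfold gs
  rw [Fintype.card_subtype, Fintype.card_subtype, Finset.card_filter, Finset.card_filter,
    Nat.cast_sum, Nat.cast_sum, ← Finset.sum_sub_distrib]
  apply Finset.sum_congr rfl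
  intro x _
  generalize x ⬝ᵥ (M *ᵥ x) = a
  revert a
  decide

lemma arf_eq {M : Matrix m m (ZMod 2)} {k : ℕ} {a : ZMod 2} (h : gs M = 2 ^ k * sg a) :
    arf M = a := by
  rw [gs_card] at h
  have hk : (0 : ℤ) < 2 ^ k := by positivity
  have h1 : ∀ a : ZMod 2, a = 0 ∨ a = 1 := by decide
  unfold arf
  rcases h1 a with rfl | rfl
  · rw [show sg 0 = 1 from rfl, mul_one] at h
    rw [if_neg]
    intro h2
    have h3 : ((Fintype.card {x : m → ZMod 2 // x ⬝ᵥ (M *ᵥ x) = 0} : ℕ) : ℤ) <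
      Fintype.card {x : m → ZMod 2 // x ⬝ᵥ (M *ᵥ x) = 1} := by exact_mod_cast h2
    linarith
  · rw [show sg 1 = -1 from rfl] at h
    rw [if_pos]
    have h3 : ((Fintype.card {x : m → ZMod 2 // x ⬝ᵥ (M *ᵥ x) = 0} : ℕ) : ℤ) <
      Fintype.card {x : m → ZMod 2 // x ⬝ᵥ (M *ᵥ x) = 1} := by linarith
    exact_mod_cast h3

end arf

section nil

/-- inverted elements of a nilpotent group have order a power of two -/
lemma pow_of_real {G : Type*} [Group G] [Group.IsNilpotent G] {x g : G}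
    (h : g * x * g⁻¹ = x⁻¹) : ∃ k : ℕ, x ^ (2 ^ k) = 1 := by
  obtain ⟨n, hn⟩ := Subgroup.nilpotent_iff_lowerCentralSeries.1
    (inferInstance : Group.IsNilpotent G)
  have h1 : ∀ j : ℕ, x ^ (2 ^ j) ∈ Subgroup.lowerCentralSeries (⊤ : Subgroup G) j := by
    intro j
    induction j with
    | zero => exact Subgroup.mem_top _
    | succ j ih =>
      have h2 : ⁅x ^ (2 ^ j), g⁆ ∈ Subgroup.lowerCentralSeries (⊤ : Subgroup G) (j + 1) := by
        rw [Subgroup.lowerCentralSeries_succ]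
        exact Subgroup.commutator_mem_commutator ih (Subgroup.mem_top g)
      have h3 : g * (x ^ (2 ^ j))⁻¹ * g⁻¹ = x ^ (2 ^ j) := by
        have h4 : g * (x ^ (2 ^ j))⁻¹ * g⁻¹ = ((g * x * g⁻¹) ^ (2 ^ j))⁻¹ := by
          rw [conj_pow]
          group
        rw [h4, h, inv_pow, inv_inv]
      have h5 : ⁅x ^ (2 ^ j), g⁆ = x ^ (2 ^ (j + 1)) := by
        rw [commutatorElement_def, mul_assoc, mul_assoc, ← mul_assoc g, h3, ← pow_add, pow_succ,
          mul_two]
      rwa [h5] at h2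
  refine ⟨n, ?_⟩
  have h2 := h1 n
  rw [hn, Subgroup.mem_bot] at h2
  exact h2

end nil

section tr

variable {m : Type*} [Fintype m] [DecidableEq m]

lemma tr_sq (M : Matrix m m (ZMod 2)) : (M * M).trace = M.trace := by
  have h1 := ZMod.trace_pow_card (p := 2) M
  rw [pow_two, pow_two] at h1
  rw [h1]
  have : ∀ a : ZMod 2, a * a = a := by decide
  exact this _

lemma tr_pow (M : Matrix m m (ZMod 2)) (k : ℕ) : (M ^ (2 ^ k)).trace = M.trace := by
  induction k with
  | zero => rw [pow_zero, pow_one]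
  | succ k ih => rw [pow_succ, mul_two, pow_add, tr_sq, ih]

end tr

section main

variable {Γ : Type*} [Group Γ] {n d : ℕ}

/-- the matrix over the field with two elements of the quadratic form `θ`, tensored with the
symmetric form `b`, in the representation `ρ` -/
noncomputable def form (b : Matrix (Fin d) (Fin d) ℤ) (ρ : Γ →* GL (Fin d) ℤ)
    (θ : Matrix (Fin n) (Fin n) (MonoidAlgebra (ZMod 2) Γ)) :
    Matrix (Fin n × Fin d) (Fin n × Fin d) (ZMod 2) :=
  Matrix.of fun x y => (θ x.1 y.1).coeff.sum fun g a =>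
    a * (((b * (ρ g).val) x.2 y.2 : ℤ) : ZMod 2)

/-- the matrix of the sums of the coefficients -/
noncomputable def aug (θ : Matrix (Fin n) (Fin n) (MonoidAlgebra (ZMod 2) Γ)) :
    Matrix (Fin n) (Fin n) (ZMod 2) :=
  Matrix.of fun i j => (θ i j).coeff.sum fun _ a => a

/-- reduction of integral matrices -/
noncomputable abbrev kap : Matrix (Fin d) (Fin d) ℤ →+* Matrix (Fin d) (Fin d) (ZMod 4) :=
  (Int.castRingHom (ZMod 4)).mapMatrix

/-- reduction of the representation -/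
noncomputable def rho4 (ρ : Γ →* GL (Fin d) ℤ) : Γ →* Matrix (Fin d) (Fin d) (ZMod 4) :=
  (kap (d := d)).toMonoidHom.comp ((Units.coeHom _).comp ρ)

lemma rho4_apply (ρ : Γ →* GL (Fin d) ℤ) (g : Γ) : rho4 ρ g = kap (ρ g).val := rfl

lemma kap_trace (M : Matrix (Fin d) (Fin d) ℤ) : (kap M).trace = ((M.trace : ℤ) : ZMod 4) := by
  unfold Matrix.trace
  rw [Int.cast_sum]
  rfl

lemma sum_add2 (f : Γ → ZMod 2) (x y : MonoidAlgebra (ZMod 2) Γ) :
    ((x + y).coeff.sum fun g a => a * f g) =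
      (x.coeff.sum fun g a => a * f g) + y.coeff.sum fun g a => a * f g := by
  rw [MonoidAlgebra.coeff_add]
  exact Finsupp.sum_add_index' (fun _ => zero_mul _) (fun _ _ _ => add_mul _ _ _)

lemma r2_entry (b : Matrix (Fin d) (Fin d) ℤ) (ρ : Γ →* GL (Fin d) ℤ)
    (x : MonoidAlgebra (ZMod 4) Γ) (i j : Fin d) :
    r2 ((kap b * Ph (rho4 ρ) x) i j) = (red x).coeff.sum fun g a =>
      a * (((b * (ρ g).val) i j : ℤ) : ZMod 2) := by
  induction x using MonoidAlgebra.induction_linear with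
  | zero =>
    rw [map_zero, mul_zero, map_zero, MonoidAlgebra.coeff_zero, Finsupp.sum_zero_index,
      Matrix.zero_apply, map_zero]
  | add x y hx hy =>
    rw [map_add, mul_add, Matrix.add_apply, map_add, hx, hy, map_add,
      sum_add2 (fun g => (((b * (ρ g).val) i j : ℤ) : ZMod 2))]
  | single g a =>
    rw [Ph_single, MonoidAlgebra.mapRingHom_single, MonoidAlgebra.coeff_single,
      Finsupp.sum_single_index (zero_mul _), Matrix.mul_smul, Matrix.smul_apply, smul_eq_mul,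
      map_mul r2, rho4_apply, ← map_mul kap]
    congr 1
    show r2 (((b * (ρ g).val) i j : ℤ) : ZMod 4) = _
    rw [map_intCast]

lemma form_eq (b : Matrix (Fin d) (Fin d) ℤ) (ρ : Γ →* GL (Fin d) ℤ)
    {Θ : Matrix (Fin n) (Fin n) (MonoidAlgebra (ZMod 4) Γ)}
    {θ : Matrix (Fin n) (Fin n) (MonoidAlgebra (ZMod 2) Γ)} (h : Θ.map red = θ) :
    (Tw (kap b) (rho4 ρ) Θ).map r2 = form b ρ θ := by
  ext x y
  rw [Matrix.map_apply]
  unfold Tw
  rw [dg_big, r2_entry]
  have h1 : red (Θ x.1 y.1) = θ x.1 y.1 := congrFun (congrFun h x.1) y.1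
  rw [h1]
  rfl

lemma aug_eq (θ : Matrix (Fin n) (Fin n) (MonoidAlgebra (ZMod 2) Γ)) :
    (form (1 : Matrix (Fin 1) (Fin 1) ℤ) (1 : Γ →* GL (Fin 1) ℤ) θ).submatrix
      (Equiv.prodUnique (Fin n) (Fin 1)).symm (Equiv.prodUnique (Fin n) (Fin 1)).symm = aug θ := by
  ext i j
  show ((θ i j).coeff.sum fun g a => a * (((1 * ((1 : Γ →* GL (Fin 1) ℤ) g).val :
    Matrix (Fin 1) (Fin 1) ℤ) default default : ℤ) : ZMod 2)) = (θ i j).coeff.sum fun _ a => a
  apply Finsupp.sum_congr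
  intro g _
  simp

lemma det_ne {m : Type*} [Fintype m] [DecidableEq m] {D Θ : Matrix m m (ZMod 4)}
    (h : D * (Θ + Θᵀ) = 1) : (Θ.map r2 + (Θ.map r2)ᵀ).det ≠ 0 := by
  intro h0
  have h1 : D.map r2 * (Θ.map r2 + (Θ.map r2)ᵀ) = 1 := by
    rw [← transpose_map, ← Matrix.map_add r2 (map_add r2), ← Matrix.map_mul, h]
    exact Matrix.map_one _ (map_zero _) (map_one _)
  have h2 := congrArg Matrix.det h1
  rw [Matrix.det_mul, h0, mul_zero, Matrix.det_one] at h2
  exact zero_ne_one h2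

/-- **Arf invariants in orthogonal representations** -/
theorem arf_main (θ : Matrix (Fin n) (Fin n) (MonoidAlgebra (ZMod 2) Γ))
    (A : (Matrix (Fin n) (Fin n) (MonoidAlgebra (ZMod 2) Γ))ˣ)
    (hA : ∀ i j g, (A.val i j).coeff g = (θ i j).coeff g + (θ j i).coeff g⁻¹)
    (ρ : Γ →* GL (Fin d) ℤ) (b : Matrix (Fin d) (Fin d) ℤ) (hb : bᵀ = b) (hb2 : Odd b.det)
    (hρ : ∀ g, (ρ g).valᵀ * b * (ρ g).val = b)
    (hreal : Group.IsNilpotent ρ.range ∨
      ∀ c g : Γ, g * c * g⁻¹ = c⁻¹ → Even ((ρ c).val.trace - d)) :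
    (form b ρ θ + (form b ρ θ)ᵀ).det ≠ 0 ∧ (aug θ + (aug θ)ᵀ).det ≠ 0 ∧
      arf (form b ρ θ) = d * arf (aug θ) := by
  obtain ⟨Θ, C, hΘ, hF⟩ := exists_frm θ A hA
  -- the inverse of `b`
  have hdet : IsUnit (kap b).det := by
    have h1 : (kap b).det = ((b.det : ℤ) : ZMod 4) := ((Int.castRingHom (ZMod 4)).map_det b).symm
    rw [h1]
    obtain ⟨k, hk⟩ := hb2
    rw [hk]
    push_cast
    have h2 : ∀ a : ZMod 4, (2 * a + 1) * (2 * a + 1) = 1 := by decide
    exact IsUnit.of_mul_eq_one _ (h2 _)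
  have hbb : (kap b)⁻¹ * kap b = 1 := Matrix.nonsing_inv_mul _ hdet
  have hbb' : kap b * (kap b)⁻¹ = 1 := Matrix.mul_nonsing_inv _ hdet
  have hb4 : (kap b)ᵀ = kap b := by
    show (b.map _)ᵀ = b.map _
    rw [← transpose_map, hb]
  have hρ4 : ∀ g, (rho4 ρ g)ᵀ * kap b = kap b * rho4 ρ g⁻¹ := by
    intro g
    have h1 : (ρ g).valᵀ * b = b * (ρ g⁻¹).val := by
      have h2 : (ρ g).val * (ρ g⁻¹).val = 1 := by
        rw [← Units.val_mul, ← map_mul, mul_inv_cancel, map_one, Units.val_one]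
      calc (ρ g).valᵀ * b = (ρ g).valᵀ * b * ((ρ g).val * (ρ g⁻¹).val) := by rw [h2, mul_one]
        _ = b * (ρ g⁻¹).val := by rw [← mul_assoc, hρ]
    have h3 := congrArg kap h1
    rw [map_mul, map_mul] at h3
    exact h3
  -- the class function
  set χ : Γ → ZMod 4 := fun g => (rho4 ρ g).trace with hχ
  have hχc : ∀ x y, χ (x * y) = χ (y * x) := by
    intro x y
    simp only [hχ]
    rw [map_mul, map_mul, Matrix.trace_mul_comm]
  have hχi : ∀ x, χ x⁻¹ = χ x := by
    intro x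
    simp only [hχ]
    have h1 : rho4 ρ x⁻¹ = (kap b)⁻¹ * ((rho4 ρ x)ᵀ * kap b) := by
      rw [hρ4, ← mul_assoc, hbb, one_mul]
    rw [h1, Matrix.trace_mul_comm, mul_assoc, hbb', mul_one, Matrix.trace_transpose]
  have hχ1 : χ 1 = d := by
    simp only [hχ]
    rw [map_one, Matrix.trace_one, Fintype.card_fin]
  have hr2 : ∀ x, r2 (χ x) = ((rho4 ρ x).map r2).trace := fun x =>
    AddMonoidHom.map_trace r2.toAddMonoidHom _
  have hχs : ∀ x, 2 * χ (x * x) = 2 * χ x := by
    intro x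
    rw [← tw_r2, ← tw_r2, hr2, hr2, map_mul, Matrix.map_mul, tr_sq]
  have hχr : ∀ c g : Γ, g * c * g⁻¹ = c⁻¹ → 2 * χ c = 2 * (d : ZMod 4) := by
    intro c g hcg
    rcases hreal with h1 | h1
    · have h2 : (ρ.rangeRestrict g) * (ρ.rangeRestrict c) * (ρ.rangeRestrict g)⁻¹ =
          (ρ.rangeRestrict c)⁻¹ := by
        rw [← map_inv, ← map_inv, ← map_mul, ← map_mul, hcg]
      obtain ⟨k, hk⟩ := pow_of_real h2
      have h3 : c ∈ (Set.univ : Set Γ) := trivial
      have h4 : ρ c ^ (2 ^ k) = 1 := by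
        have := congrArg Subtype.val hk
        simpa using this
      have h5 : (rho4 ρ c) ^ (2 ^ k) = 1 := by
        rw [rho4_apply, ← map_pow, ← Units.val_pow_eq_pow_val, h4, Units.val_one, map_one]
      have h6 : ((rho4 ρ c).map r2) ^ (2 ^ k) = 1 := by
        have h7 : r2.mapMatrix (rho4 ρ c) ^ (2 ^ k) = 1 := by
          rw [← map_pow, h5, map_one]
        exact h7
      rw [← tw_r2, ← tw_r2, hr2, ← tr_pow _ k, h6, Matrix.trace_one, Fintype.card_fin,
        map_natCast]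
    · obtain ⟨k, hk⟩ := h1 c g hcg
      have h2 : χ c = ((ρ c).val.trace : ZMod 4) := by
        simp only [hχ]
        rw [rho4_apply, kap_trace]
      have h3 : (ρ c).val.trace = d + (k + k) := by linarith
      rw [h2, h3]
      push_cast
      have : ∀ a b : ZMod 4, 2 * (a + (b + b)) = 2 * a := by decide
      exact this _ _
  have hvan := hF.main (f := fun g => χ g + (-(d : ZMod 4)) * 1) (by
      intro x y
      rw [hχc]) (by
      intro x
      rw [hχi]) (by
      rw [hχ1]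
      ring) (by
      intro x
      rw [mul_add, mul_add, hχs]) (by
      intro c g hcg
      rw [mul_add, hχr c g hcg]
      ring)
  rw [Fn_fun_add, Fn_fun_smul] at hvan
  obtain ⟨⟨D1, hD1⟩, k1, a1, c1, g1, t1⟩ := Tw_good hbb hb4 hρ4 hF
  have hb1 : (kap (1 : Matrix (Fin 1) (Fin 1) ℤ)) = 1 := map_one _
  obtain ⟨⟨D2, hD2⟩, k2, a2, c2, g2, t2⟩ := Tw_good (n := n) (d := 1)
    (b := kap (1 : Matrix (Fin 1) (Fin 1) ℤ)) (b' := 1)
    (ρ := rho4 (1 : Γ →* GL (Fin 1) ℤ)) (by rw [hb1, mul_one]) (by rw [hb1, transpose_one]) (by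
      intro g
      have h1 : ∀ g : Γ, rho4 (1 : Γ →* GL (Fin 1) ℤ) g = 1 := by
        intro g
        rw [rho4_apply, MonoidHom.one_apply, Units.val_one, map_one]
      rw [h1, h1, transpose_one, hb1]) hF
  have t2' : Fn (fun _ => (1 : ZMod 4)) (C * st Θ * (C * st Θ)) = k2 + tw a2 := by
    rw [← t2]
    congr 1
  have d1 := det_ne hD1
  have d2 := det_ne hD2
  rw [form_eq b ρ hΘ] at g1 d1
  rw [form_eq _ _ hΘ] at g2 d2
  have g2' : gs (aug θ) = 2 ^ k2 * sg a2 := by
    rw [← g2, ← aug_eq, gs_submatrix]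
  have d2' : (aug θ + (aug θ)ᵀ).det ≠ 0 := by
    rw [← aug_eq]
    have h1 : ∀ M : Matrix (Fin n × Fin 1) (Fin n × Fin 1) (ZMod 2),
        M.submatrix (Equiv.prodUnique (Fin n) (Fin 1)).symm
          (Equiv.prodUnique (Fin n) (Fin 1)).symm +
        (M.submatrix (Equiv.prodUnique (Fin n) (Fin 1)).symm
          (Equiv.prodUnique (Fin n) (Fin 1)).symm)ᵀ =
        (M + Mᵀ).submatrix (Equiv.prodUnique (Fin n) (Fin 1)).symm
          (Equiv.prodUnique (Fin n) (Fin 1)).symm := fun M => rfl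
    rw [h1, Matrix.det_submatrix_equiv_self]
    exact d2
  refine ⟨d1, d2', ?_⟩
  rw [arf_eq g1, arf_eq g2']
  have hk : k1 = d * k2 := by
    have h1 : 2 * k1 = 2 * (d * k2) := by
      rw [← c1]
      have h2 : n = 2 * k2 := by rw [← c2, mul_one]
      rw [h2]
      ring
    omega
  have e1 : (k1 : ZMod 4) + tw a1 + -(d : ZMod 4) * (k2 + tw a2) = 0 := by
    rw [← t1, ← t2']
    exact hvan
  rw [hk] at e1
  push_cast at e1
  have e2 : tw a1 = d * tw a2 := by linear_combination e1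
  have e3 : ∀ (m : ℕ) (a : ZMod 2), (m : ZMod 4) * tw a = tw ((m : ZMod 2) * a) := by
    intro m a
    have h1 : ((m : ZMod 2)) = r2 (m : ZMod 4) := (map_natCast r2 m).symm
    rw [h1]
    generalize (m : ZMod 4) = x
    revert x a
    decide
  rw [e3] at e2
  exact tw_inj e2

end main

end Pool.Agent.Y72.Ar
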