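import Pool.Agent.Y72.Ar.Grp2

/-!
# Quadratic forms over group rings in orthogonal representations
-/

set_option autoImplicit false
set_option linter.unusedSectionVars false

namespace Pool.Agent.Y72.Ar

open Finset Matrix MulOpposite

section lift

variable {Γ : Type*} [Group Γ] {I : Type*} [Fintype I] [DecidableEq I]

/-- reduction of coefficients -/
noncomputable abbrev red : MonoidAlgebra (ZMod 4) Γ →+* MonoidAlgebra (ZMod 2) Γ :=
  MonoidAlgebra.mapRingHom Γ r2

lemma exists_red (x : MonoidAlgebra (ZMod 2) Γ) : ∃ y : MonoidAlgebra (ZMod 4) Γ, red y = x := by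
  induction x using MonoidAlgebra.induction_linear with
  | zero => exact ⟨0, map_zero _⟩
  | add x y hx hy =>
    obtain ⟨x', rfl⟩ := hx
    obtain ⟨y', rfl⟩ := hy
    exact ⟨x' + y', map_add _ _ _⟩
  | single g a =>
    obtain ⟨b, hb⟩ : ∃ b : ZMod 4, r2 b = a := by
      revert a
      decide
    exact ⟨MonoidAlgebra.single g b, by rw [MonoidAlgebra.mapRingHom_single, hb]⟩

/-- the half of an even number -/
def hf (a : ZMod 4) : ZMod 4 := if a = 0 then 0 else 1

lemma half_of_red {x : MonoidAlgebra (ZMod 4) Γ} (h : red x = 0) :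
    ∃ y : MonoidAlgebra (ZMod 4) Γ, x = y + y := by
  refine ⟨MonoidAlgebra.ofCoeff
    (x.coeff.mapRange hf rfl), ?_⟩
  apply MonoidAlgebra.coeff_injective
  ext g
  rw [MonoidAlgebra.coeff_add, Finsupp.add_apply, MonoidAlgebra.coeff_ofCoeff,
    Finsupp.mapRange_apply]
  have h1 : r2 (x.coeff g) = 0 := by
    rw [← MonoidAlgebra.coeff_mapRingHom, h]
    rfl
  have h2 : ∀ a : ZMod 4, r2 a = 0 → a = hf a + hf a := by decide
  exact h2 _ h1

lemma nil_of_red {X : Matrix I I (MonoidAlgebra (ZMod 4) Γ)} (h : X.map red = 0) :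
    X * X = 0 := by
  have h1 : ∀ i j, ∃ y : MonoidAlgebra (ZMod 4) Γ, X i j = y + y := by
    intro i j
    apply half_of_red
    exact congrFun (congrFun h i) j
  choose Y hY using h1
  have h2 : X = Matrix.of Y + Matrix.of Y := by
    ext1 i j
    exact hY i j
  have h3 : ∀ z : MonoidAlgebra (ZMod 4) Γ, z + z + (z + z) = 0 := by
    intro z
    apply MonoidAlgebra.coeff_injective
    ext g
    simp only [MonoidAlgebra.coeff_add, Finsupp.add_apply]
    have : ∀ a : ZMod 4, a + a + (a + a) = 0 := by decide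
    exact this _
  rw [h2, add_mul, mul_add]
  ext1 i j
  rw [Matrix.add_apply, Matrix.add_apply, Matrix.zero_apply]
  exact h3 _

lemma exists_inv {A : Matrix I I (MonoidAlgebra (ZMod 4) Γ)}
    {B : Matrix I I (MonoidAlgebra (ZMod 2) Γ)} (h1 : A.map red * B = 1) (h2 : B * A.map red = 1) :
    ∃ C, C * A = 1 ∧ A * C = 1 := by
  choose l hl using (exists_red (Γ := Γ))
  have hB : (B.map l).map red = B := by
    ext1 i j
    exact hl _
  have hmul : ∀ X Y : Matrix I I (MonoidAlgebra (ZMod 4) Γ),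
      (X * Y).map red = X.map red * Y.map red := fun X Y => Matrix.map_mul
  have hone : (1 : Matrix I I (MonoidAlgebra (ZMod 4) Γ)).map red = 1 :=
    Matrix.map_one _ (map_zero _) (map_one _)
  have hsub : ∀ X Y : Matrix I I (MonoidAlgebra (ZMod 4) Γ),
      (X - Y).map red = X.map red - Y.map red := fun X Y => by
    ext1 i j
    exact map_sub red _ _
  have e1 : (A * B.map l - 1) * (A * B.map l - 1) = 0 := by
    apply nil_of_red
    rw [hsub, hmul, hB, h1, hone, sub_self]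
  have e2 : (B.map l * A - 1) * (B.map l * A - 1) = 0 := by
    apply nil_of_red
    rw [hsub, hmul, hB, h2, hone, sub_self]
  have f1 : A * (B.map l * (1 - (A * B.map l - 1))) = 1 := by
    rw [← mul_assoc]
    have : A * B.map l = 1 + (A * B.map l - 1) := by abel
    generalize A * B.map l - 1 = E at e1 this ⊢
    rw [this, add_mul, one_mul, mul_sub, mul_one, e1]
    abel
  have f2 : (1 - (B.map l * A - 1)) * B.map l * A = 1 := by
    rw [mul_assoc]
    have : B.map l * A = 1 + (B.map l * A - 1) := by abel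
    generalize B.map l * A - 1 = E at e2 this ⊢
    rw [this, mul_add, mul_one, sub_mul, one_mul, e2]
    abel
  have f3 : (1 - (B.map l * A - 1)) * B.map l = B.map l * (1 - (A * B.map l - 1)) := by
    calc (1 - (B.map l * A - 1)) * B.map l =
          (1 - (B.map l * A - 1)) * B.map l * (A * (B.map l * (1 - (A * B.map l - 1)))) := by
            rw [f1, mul_one]
      _ = B.map l * (1 - (A * B.map l - 1)) := by rw [← mul_assoc, f2, one_mul]
  exact ⟨_, by rw [← f3]; exact f2, f1⟩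

/-- lifting a nonsingular form -/
lemma exists_frm (θ : Matrix I I (MonoidAlgebra (ZMod 2) Γ))
    (A : (Matrix I I (MonoidAlgebra (ZMod 2) Γ))ˣ)
    (hA : ∀ i j g, (A.val i j).coeff g = (θ i j).coeff g + (θ j i).coeff g⁻¹) :
    ∃ Θ C : Matrix I I (MonoidAlgebra (ZMod 4) Γ), Θ.map red = θ ∧ Frm Θ C := by
  choose l hl using (exists_red (Γ := Γ))
  have h1 : (θ.map l).map red = θ := by
    ext1 i j
    exact hl _
  have h2 : (θ.map l + st (θ.map l)).map red = A.val := by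
    ext1 i j
    apply MonoidAlgebra.coeff_injective
    ext g
    rw [hA]
    have h3 : ((θ.map l + st (θ.map l)).map red i j).coeff g =
        r2 (((θ.map l) i j).coeff g + ((θ.map l) j i).coeff g⁻¹) := by
      rw [Matrix.map_apply, MonoidAlgebra.coeff_mapRingHom, Matrix.add_apply,
        MonoidAlgebra.coeff_add, Finsupp.add_apply, st_coeff]
    rw [h3, map_add, ← MonoidAlgebra.coeff_mapRingHom, ← MonoidAlgebra.coeff_mapRingHom]
    conv_rhs => rw [← h1]
    rfl
  obtain ⟨C, h3, h4⟩ := exists_inv (A := θ.map l + st (θ.map l)) (B := (A⁻¹).val)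
    (by rw [h2]; exact A.mul_inv) (by rw [h2]; exact A.inv_mul)
  exact ⟨θ.map l, C, h1, h3, h4⟩

end lift

section rep

variable {Γ : Type*} [Group Γ] {n d : ℕ}

/-- the ring homomorphism of a representation -/
noncomputable def Ph (ρ : Γ →* Matrix (Fin d) (Fin d) (ZMod 4)) :
    MonoidAlgebra (ZMod 4) Γ →+* Matrix (Fin d) (Fin d) (ZMod 4) :=
  (MonoidAlgebra.lift (ZMod 4) (Matrix (Fin d) (Fin d) (ZMod 4)) Γ ρ).toRingHom

lemma Ph_single (ρ : Γ →* Matrix (Fin d) (Fin d) (ZMod 4)) (g : Γ) (a : ZMod 4) :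
    Ph ρ (MonoidAlgebra.single g a) = a • ρ g := MonoidAlgebra.lift_single _ _ _

lemma Ph_trace (ρ : Γ →* Matrix (Fin d) (Fin d) (ZMod 4)) (x : MonoidAlgebra (ZMod 4) Γ) :
    (Ph ρ x).trace = ph (fun g => (ρ g).trace) x := by
  induction x using MonoidAlgebra.induction_linear with
  | zero => rw [map_zero, ph_zero, Matrix.trace_zero]
  | add x y hx hy => rw [map_add, Matrix.trace_add, ph_add, hx, hy]
  | single g a => rw [Ph_single, Matrix.trace_smul, ph_single, smul_eq_mul]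

/-- the block matrix -/
noncomputable def big (ρ : Γ →* Matrix (Fin d) (Fin d) (ZMod 4)) :
    Matrix (Fin n) (Fin n) (MonoidAlgebra (ZMod 4) Γ) →+*
      Matrix (Fin n × Fin d) (Fin n × Fin d) (ZMod 4) :=
  (Matrix.compRingEquiv (Fin n) (Fin d) (ZMod 4)).toRingHom.comp (Ph ρ).mapMatrix

lemma big_apply (ρ : Γ →* Matrix (Fin d) (Fin d) (ZMod 4))
    (X : Matrix (Fin n) (Fin n) (MonoidAlgebra (ZMod 4) Γ)) (x y : Fin n × Fin d) :
    big ρ X x y = Ph ρ (X x.1 y.1) x.2 y.2 := rfl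

lemma big_trace (ρ : Γ →* Matrix (Fin d) (Fin d) (ZMod 4))
    (X : Matrix (Fin n) (Fin n) (MonoidAlgebra (ZMod 4) Γ)) :
    (big ρ X).trace = Fn (fun g => (ρ g).trace) X := by
  rw [Matrix.trace, Fintype.sum_prod_type]
  apply Finset.sum_congr rfl
  intro i _
  rw [← Ph_trace]
  rfl

/-- the block diagonal matrix -/
noncomputable def dg (b : Matrix (Fin d) (Fin d) (ZMod 4)) :
    Matrix (Fin n × Fin d) (Fin n × Fin d) (ZMod 4) :=
  Matrix.compRingEquiv (Fin n) (Fin d) (ZMod 4) (Matrix.diagonal fun _ => b)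

lemma dg_mul (b b' : Matrix (Fin d) (Fin d) (ZMod 4)) :
    (dg b : Matrix (Fin n × Fin d) (Fin n × Fin d) (ZMod 4)) * dg b' = dg (b * b') := by
  unfold dg
  rw [← map_mul, Matrix.diagonal_mul_diagonal]

lemma dg_one : (dg 1 : Matrix (Fin n × Fin d) (Fin n × Fin d) (ZMod 4)) = 1 := by
  unfold dg
  rw [Matrix.diagonal_one, map_one]

lemma dg_big (b : Matrix (Fin d) (Fin d) (ZMod 4)) (ρ : Γ →* Matrix (Fin d) (Fin d) (ZMod 4))
    (X : Matrix (Fin n) (Fin n) (MonoidAlgebra (ZMod 4) Γ)) (x y : Fin n × Fin d) :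
    ((dg b : Matrix (Fin n × Fin d) (Fin n × Fin d) (ZMod 4)) * big ρ X) x y =
      (b * Ph ρ (X x.1 y.1)) x.2 y.2 := by
  have h1 : (dg b : Matrix (Fin n × Fin d) (Fin n × Fin d) (ZMod 4)) * big ρ X = Matrix.compRingEquiv (Fin n) (Fin d) (ZMod 4)
      ((Matrix.diagonal fun _ => b) * (Ph ρ).mapMatrix X) := by
    rw [map_mul]
    rfl
  rw [h1]
  show (((Matrix.diagonal fun _ => b : Matrix (Fin n) (Fin n) (Matrix (Fin d) (Fin d) (ZMod 4))) *
    (Ph ρ).mapMatrix X) x.1 y.1) x.2 y.2 = _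
  rw [Matrix.diagonal_mul]
  rfl

lemma Ph_transpose {b : Matrix (Fin d) (Fin d) (ZMod 4)} {ρ : Γ →* Matrix (Fin d) (Fin d) (ZMod 4)}
    (hb : bᵀ = b) (hρ : ∀ g, (ρ g)ᵀ * b = b * ρ g⁻¹) (x : MonoidAlgebra (ZMod 4) Γ) :
    (b * Ph ρ x)ᵀ = b * Ph ρ (unop (iv x)) := by
  induction x using MonoidAlgebra.induction_linear with
  | zero => rw [map_zero, mul_zero, map_zero, unop_zero, map_zero, mul_zero, transpose_zero]
  | add x y hx hy =>
    rw [map_add, mul_add, transpose_add, hx, hy, map_add, unop_add, map_add, mul_add]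
  | single g a =>
    rw [Ph_single, iv_single, unop_op, Ph_single, transpose_mul, transpose_smul, hb,
      Matrix.smul_mul, hρ, Matrix.mul_smul]

/-- the matrix of the form in a representation -/
noncomputable def Tw (b : Matrix (Fin d) (Fin d) (ZMod 4))
    (ρ : Γ →* Matrix (Fin d) (Fin d) (ZMod 4))
    (X : Matrix (Fin n) (Fin n) (MonoidAlgebra (ZMod 4) Γ)) :
    Matrix (Fin n × Fin d) (Fin n × Fin d) (ZMod 4) := dg b * big ρ X

lemma Tw_transpose {b : Matrix (Fin d) (Fin d) (ZMod 4)}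
    {ρ : Γ →* Matrix (Fin d) (Fin d) (ZMod 4)}
    (hb : bᵀ = b) (hρ : ∀ g, (ρ g)ᵀ * b = b * ρ g⁻¹)
    (X : Matrix (Fin n) (Fin n) (MonoidAlgebra (ZMod 4) Γ)) : (Tw b ρ X)ᵀ = Tw b ρ (st X) := by
  ext x y
  rw [transpose_apply]
  unfold Tw
  rw [dg_big, dg_big]
  exact congrFun (congrFun (Ph_transpose hb hρ (X y.1 x.1)) x.2) y.2

/-- **the trace of the square** -/
theorem Tw_good {b b' : Matrix (Fin d) (Fin d) (ZMod 4)} (hbb : b' * b = 1)
    {ρ : Γ →* Matrix (Fin d) (Fin d) (ZMod 4)}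
    (hb : bᵀ = b) (hρ : ∀ g, (ρ g)ᵀ * b = b * ρ g⁻¹)
    {Θ C : Matrix (Fin n) (Fin n) (MonoidAlgebra (ZMod 4) Γ)} (h : Frm Θ C) :
    (∃ D, D * (Tw b ρ Θ + (Tw b ρ Θ)ᵀ) = 1) ∧
    ∃ (k : ℕ) (a : ZMod 2), n * d = 2 * k ∧ gs ((Tw b ρ Θ).map r2) = 2 ^ k * sg a ∧
      Fn (fun g => (ρ g).trace) (C * st Θ * (C * st Θ)) = k + tw a := by
  have e0 : (dg b' : Matrix (Fin n × Fin d) (Fin n × Fin d) (ZMod 4)) * dg b = 1 := by
    rw [dg_mul, hbb, dg_one]
  have e1 : (big ρ C * dg b') * (Tw b ρ Θ + (Tw b ρ Θ)ᵀ) = 1 := by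
    rw [Tw_transpose hb hρ]
    unfold Tw
    rw [← mul_add, ← map_add, mul_assoc, ← mul_assoc (dg b'), e0, one_mul, ← map_mul, h.left,
      map_one]
  refine ⟨⟨_, e1⟩, ?_⟩
  obtain ⟨k, a, h1, h2, h3⟩ := gauss e1
  refine ⟨k, a, ?_, h2, ?_⟩
  · rw [← h1, Fintype.card_prod, Fintype.card_fin, Fintype.card_fin]
  · rw [← h3 _ e1, ← big_trace, map_mul]
    congr 1
    have e2 : big ρ C * dg b' * (Tw b ρ Θ)ᵀ = big ρ (C * st Θ) := by
      rw [Tw_transpose hb hρ]
      unfold Tw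
      rw [mul_assoc, ← mul_assoc (dg b'), e0, one_mul, ← map_mul]
    rw [e2]

end rep

end Pool.Agent.Y72.Ar
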